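import Mathlib
import Pool.Agent.H86.CMLib.W529.Ta.Transvection

/-!
# Square-zero elements of rank two in Lie algebras of symplectic endomorphisms
-/

set_option linter.unusedSectionVars false
set_option linter.deprecated false

namespace Pool.Agent.W528.Tor

open Module Pool.Agent.H204R3.SP Pool.Agent.W529.Ta

noncomputable section

variable {k : Type*} [Field k] [CharZero k] {V : Type*} [AddCommGroup V] [Module k V]
  (ω : V →ₗ[k] V →ₗ[k] k)

/-- The pairing between the elements `SS x y` and `SS z w` is symmetric. -/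
theorem pair_symm (halt : ∀ v, ω v v = 0) (x y z w : V) :
    ω x (SS ω z w y) = ω z (SS ω x y w) := by
  have hanti := alt_anti halt
  simp only [SS_apply, map_add, map_smul, smul_eq_mul]
  rw [hanti w y, hanti x z]
  ring

/-- `SS z z` for `z = s u + r v`. -/
theorem SS_sq (s r : k) (u v : V) : SS ω (s • u + r • v) (s • u + r • v) =
    (s ^ 2) • SS ω u u + (2 * s * r) • SS ω u v + (r ^ 2) • SS ω v v := by
  refine LinearMap.ext fun w => ?_
  simp only [LinearMap.add_apply, LinearMap.smul_apply, SS_apply, map_add, map_smul, smul_add,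
    add_smul, smul_smul, smul_eq_mul]
  module

/-- The product `N x N` for `N = SS u v`. -/
theorem SS_mul_SS (halt : ∀ v, ω v v = 0) {x : Module.End k V}
    (hx : ∀ u w, ω (x u) w + ω u (x w) = 0) (u v : V) :
    (2 : k) • (SS ω u v * x * SS ω u v) =
      (2 * ω u (x v)) • SS ω u v + ω v (x v) • SS ω u u + ω u (x u) • SS ω v v := by
  have hanti := alt_anti halt
  have h1 : ω v (x u) = ω u (x v) := by
    have h2 := hx v u
    rw [hanti (x v) u] at h2
    linear_combination h2
  refine LinearMap.ext fun w => ?_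
  simp only [LinearMap.add_apply, LinearMap.smul_apply, Module.End.mul_apply, SS_apply, map_add,
    map_smul, smul_add, add_smul, smul_smul, smul_eq_mul, h1]
  module

/-- `SS u v` has square zero if `ω u v = 0`. -/
theorem SS_sq_zero (halt : ∀ v, ω v v = 0) {u v : V} (huv : ω u v = 0) :
    SS ω u v * SS ω u v = 0 := by
  have hanti := alt_anti halt
  have h1 : ω v u = 0 := by rw [hanti, huv, neg_zero]
  refine LinearMap.ext fun w => ?_
  simp only [Module.End.mul_apply, SS_apply, map_add, map_smul, halt, huv, h1, smul_zero, zero_smul,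
    add_zero, LinearMap.zero_apply]

/-- `N x N` is in the Lie algebra if `N` has square zero. -/
theorem mul_mul_mem (𝔥 : Submodule k (Module.End k V))
    (hbr : ∀ X ∈ 𝔥, ∀ Y ∈ 𝔥, X * Y - Y * X ∈ 𝔥) {N x : Module.End k V} (hN : N ∈ 𝔥)
    (hx : x ∈ 𝔥) (hN2 : N * N = 0) : N * x * N ∈ 𝔥 := by
  have h1 := hbr _ hN _ (hbr _ hN _ hx)
  have h2 : N * (N * x - x * N) - (N * x - x * N) * N = (-2 : k) • (N * x * N) := by
    have h3 : N * (N * x - x * N) - (N * x - x * N) * N =
        (N * N) * x - N * x * N - N * x * N + x * (N * N) := by noncomm_ring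
    rw [h3, hN2, zero_mul, mul_zero]
    module
  rw [h2] at h1
  exact (Submodule.smul_mem_iff _ (by norm_num : (-2 : k) ≠ 0)).1 h1

section star

variable [IsAlgClosed k] (𝔥 : Submodule k (Module.End k V))
  (hbr : ∀ X ∈ 𝔥, ∀ Y ∈ 𝔥, X * Y - Y * X ∈ 𝔥)
  (hsp : ∀ X ∈ 𝔥, ∀ u w, ω (X u) w + ω u (X w) = 0)
  (hno : ∀ d, SS ω d d ∈ 𝔥 → d = 0)

include hbr hsp hno in
/-- If the Lie algebra contains no elements of rank one, then `ω (u, x u) = 0` for all `x` in it
and all square-zero elements `SS u v`. -/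
theorem star (halt : ∀ v, ω v v = 0) {u v : V} (hu : u ≠ 0) (hv : v ≠ 0) (huv : ω u v = 0)
    (h : SS ω u v ∈ 𝔥) {x : Module.End k V} (hx : x ∈ 𝔥) : ω u (x u) = 0 := by
  obtain ⟨s, hs⟩ := IsAlgClosed.exists_pow_nat_eq (ω v (x v)) (n := 2) (by norm_num)
  obtain ⟨r, hr⟩ := IsAlgClosed.exists_pow_nat_eq (ω u (x u)) (n := 2) (by norm_num)
  have h1 := mul_mul_mem 𝔥 hbr h hx (SS_sq_zero ω halt huv)
  have h2 := SS_mul_SS ω halt (hsp x hx) u v
  have h3 : SS ω (s • u + r • v) (s • u + r • v) ∈ 𝔥 := by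
    have h4 : SS ω (s • u + r • v) (s • u + r • v) =
        (2 : k) • (SS ω u v * x * SS ω u v) + (2 * s * r - 2 * ω u (x v)) • SS ω u v := by
      rw [SS_sq, h2, hs, hr]
      module
    rw [h4]
    exact Submodule.add_mem _ (Submodule.smul_mem _ _ h1) (Submodule.smul_mem _ _ h)
  have h5 := hno _ h3
  by_cases hr0 : r = 0
  · rw [← hr, hr0]
    ring
  · exfalso
    have h6 : v = (-(s / r)) • u := by
      have h7 : r • v = -(s • u) := by
        rw [eq_neg_iff_add_eq_zero, add_comm]
        exact h5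
      have h8 : v = r⁻¹ • (r • v) := by rw [smul_smul, inv_mul_cancel₀ hr0, one_smul]
      rw [h8, h7, smul_neg, smul_smul, neg_smul]
      congr 2
      field_simp
    have h7 : s ≠ 0 := by
      rintro rfl
      apply hv
      rw [h6, zero_div, neg_zero, zero_smul]
    rw [h6, SS_smul_right] at h
    exact hu (hno u ((Submodule.smul_mem_iff _ (neg_ne_zero.2 (div_ne_zero h7 hr0))).1 h))

end star

end

end Pool.Agent.W528.Tor
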