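import Mathlib
import Pool.Agent.H86.CMLib.W528.Tor.Core1

/-!
# Existence of a conjugate which is not orthogonal
-/

set_option linter.unusedSectionVars false
set_option linter.deprecated false

namespace Pool.Agent.W528.Tor

open Module Pool.Agent.H204R3.SP Pool.Agent.W529.Ta

noncomputable section

variable {k : Type*} [Field k] [CharZero k] {V : Type*} [AddCommGroup V] [Module k V]
  {Γ : Type*} [Group Γ] (ρ : Representation k Γ V) (χ : Γ →* k)
  (ω : V →ₗ[k] V →ₗ[k] k)

/-- The span of the conjugates of `SS a b`. -/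
def conjSpan (a b : V) : Submodule k (Module.End k V) :=
  Submodule.span k (Set.range fun s : Γ => SS ω (ρ s a) (ρ s b))

variable (a b : V)

theorem mem_conjSpan (s : Γ) : SS ω (ρ s a) (ρ s b) ∈ conjSpan ρ ω a b :=
  Submodule.subset_span ⟨s, rfl⟩

theorem mem_conjSpan_one : SS ω a b ∈ conjSpan ρ ω a b := by
  have h := mem_conjSpan ρ ω a b 1
  rwa [map_one, Module.End.one_apply, Module.End.one_apply] at h

theorem chi_ne (s : Γ) : χ s ≠ 0 := by
  intro h
  have h1 : χ s * χ s⁻¹ = 1 := by rw [← map_mul, mul_inv_cancel, map_one]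
  rw [h, zero_mul] at h1
  exact zero_ne_one h1

theorem conj_SS (hωρ : ∀ s u v, ω (ρ s u) (ρ s v) = χ s * ω u v) (s : Γ) (u v : V) :
    ρ s * SS ω u v * ρ s⁻¹ = (χ s)⁻¹ • SS ω (ρ s u) (ρ s v) := by
  rw [SS_rho ρ χ ω hωρ, smul_smul, inv_mul_cancel₀ (chi_ne χ s), one_smul]

theorem rho_mul_apply (s t : Γ) (v : V) : ρ (s * t) v = ρ s (ρ t v) := by
  rw [map_mul]
  rfl

theorem conjSpan_conj (hωρ : ∀ s u v, ω (ρ s u) (ρ s v) = χ s * ω u v) (s : Γ)
    {X : Module.End k V} (hX : X ∈ conjSpan ρ ω a b) : ρ s * X * ρ s⁻¹ ∈ conjSpan ρ ω a b := by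
  induction hX using Submodule.span_induction with
  | mem X hX =>
    obtain ⟨t, rfl⟩ := hX
    rw [conj_SS ρ χ ω hωρ, ← rho_mul_apply, ← rho_mul_apply]
    exact Submodule.smul_mem _ _ (mem_conjSpan ρ ω a b _)
  | zero => rw [mul_zero, zero_mul]; exact Submodule.zero_mem _
  | add X Y _ _ hX hY => rw [mul_add, add_mul]; exact Submodule.add_mem _ hX hY
  | smul c X _ hX =>
    rw [mul_smul_comm, smul_mul_assoc]
    exact Submodule.smul_mem _ _ hX

theorem conjSpan_le (hωρ : ∀ s u v, ω (ρ s u) (ρ s v) = χ s * ω u v)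
    (𝔥 : Submodule k (Module.End k V)) (hconj : ∀ s : Γ, ∀ X ∈ 𝔥, ρ s * X * ρ s⁻¹ ∈ 𝔥)
    (hab : SS ω a b ∈ 𝔥) : conjSpan ρ ω a b ≤ 𝔥 := by
  rw [conjSpan, Submodule.span_le]
  rintro _ ⟨s, rfl⟩
  change SS ω (ρ s a) (ρ s b) ∈ 𝔥
  rw [SS_rho ρ χ ω hωρ]
  exact Submodule.smul_mem _ _ (hconj s _ hab)

/-- Conjugation back. -/
theorem conj_back (s : Γ) (X : Module.End k V) : ρ s * (ρ s⁻¹ * X * ρ s) * ρ s⁻¹ = X := by
  have h1 : ρ s * ρ s⁻¹ = 1 := by rw [← map_mul, mul_inv_cancel, map_one]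
  calc ρ s * (ρ s⁻¹ * X * ρ s) * ρ s⁻¹ = (ρ s * ρ s⁻¹) * X * (ρ s * ρ s⁻¹) := by noncomm_ring
    _ = X := by rw [h1, one_mul, mul_one]

/-- The span of the conjugates of `N = ρ t - 1` is a Lie algebra if `N` has square zero. -/
theorem conjSpan_bracket (halt : ∀ v, ω v v = 0)
    (hωρ : ∀ s u v, ω (ρ s u) (ρ s v) = χ s * ω u v) (hab : ω a b = 0) {t : Γ}
    (ht : ρ t = 1 + SS ω a b) :
    ∀ X ∈ conjSpan ρ ω a b, ∀ Y ∈ conjSpan ρ ω a b, X * Y - Y * X ∈ conjSpan ρ ω a b := by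
  have hN2 := SS_sq_zero ω halt hab
  have ht1 : ρ t⁻¹ = 1 - SS ω a b := by
    have h1 : ρ t * (1 - SS ω a b) = 1 := by
      rw [ht]
      have h2 : (1 + SS ω a b) * (1 - SS ω a b) = 1 - SS ω a b * SS ω a b := by noncomm_ring
      rw [h2, hN2, sub_zero]
    have h2 : ρ t⁻¹ * ρ t = 1 := by rw [← map_mul, inv_mul_cancel, map_one]
    calc ρ t⁻¹ = ρ t⁻¹ * (ρ t * (1 - SS ω a b)) := by rw [h1, mul_one]
      _ = (ρ t⁻¹ * ρ t) * (1 - SS ω a b) := by rw [mul_assoc]
      _ = _ := by rw [h2, one_mul]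
  have h1 : ∀ X ∈ conjSpan ρ ω a b, SS ω a b * X - X * SS ω a b ∈ conjSpan ρ ω a b := by
    intro X hX
    have h2 := conjSpan_conj ρ χ ω a b hωρ t hX
    have h3 := conjSpan_conj ρ χ ω a b hωρ t⁻¹ hX
    rw [inv_inv] at h3
    rw [ht1, ht] at h2 h3
    have h4 := Submodule.sub_mem _ h2 h3
    have h5 : (1 + SS ω a b) * X * (1 - SS ω a b) - (1 - SS ω a b) * X * (1 + SS ω a b) =
        (2 : k) • (SS ω a b * X - X * SS ω a b) := by
      rw [two_smul]
      noncomm_ring
    rw [h5] at h4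
    exact (Submodule.smul_mem_iff _ two_ne_zero).1 h4
  have h2 : ∀ s : Γ, ∀ X ∈ conjSpan ρ ω a b,
      SS ω (ρ s a) (ρ s b) * X - X * SS ω (ρ s a) (ρ s b) ∈ conjSpan ρ ω a b := by
    intro s X hX
    have h3 := conjSpan_conj ρ χ ω a b hωρ s⁻¹ hX
    rw [inv_inv] at h3
    have h4 := conjSpan_conj ρ χ ω a b hωρ s (h1 _ h3)
    have h5 : ρ s * (SS ω a b * (ρ s⁻¹ * X * ρ s) - (ρ s⁻¹ * X * ρ s) * SS ω a b) * ρ s⁻¹ =
        (ρ s * SS ω a b * ρ s⁻¹) * X - X * (ρ s * SS ω a b * ρ s⁻¹) := by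
      have h6 : ρ s * ρ s⁻¹ = 1 := by rw [← map_mul, mul_inv_cancel, map_one]
      calc _ = (ρ s * SS ω a b * ρ s⁻¹) * X * (ρ s * ρ s⁻¹) -
            (ρ s * ρ s⁻¹) * X * (ρ s * SS ω a b * ρ s⁻¹) := by noncomm_ring
        _ = _ := by rw [h6, mul_one, one_mul]
    rw [h5, conj_SS ρ χ ω hωρ, smul_mul_assoc, mul_smul_comm, ← smul_sub] at h4
    exact (Submodule.smul_mem_iff _ (inv_ne_zero (chi_ne χ s))).1 h4
  intro X hX Y hY
  induction hX using Submodule.span_induction with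
  | mem X hX =>
    obtain ⟨s, rfl⟩ := hX
    exact h2 s Y hY
  | zero => rw [zero_mul, mul_zero, sub_zero]; exact Submodule.zero_mem _
  | add X X' _ _ hX hX' =>
    rw [add_mul, mul_add, add_sub_add_comm]
    exact Submodule.add_mem _ hX hX'
  | smul c X _ hX =>
    rw [smul_mul_assoc, mul_smul_comm, ← smul_sub]
    exact Submodule.smul_mem _ _ hX

/-- If `N` is orthogonal to its conjugates, the trace form vanishes on their span. -/
theorem orth_all (halt : ∀ v, ω v v = 0)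
    (hωρ : ∀ s u v, ω (ρ s u) (ρ s v) = χ s * ω u v)
    (h0 : ∀ s : Γ, ω a (SS ω (ρ s a) (ρ s b) b) = 0) {x y : V}
    (hxy : SS ω x y ∈ conjSpan ρ ω a b) {X : Module.End k V} (hX : X ∈ conjSpan ρ ω a b) :
    ω x (X y) = 0 := by
  have h1 : ∀ X ∈ conjSpan ρ ω a b, ω a (X b) = 0 := by
    intro X hX
    induction hX using Submodule.span_induction with
    | mem X hX =>
      obtain ⟨s, rfl⟩ := hX
      exact h0 s
    | zero => rw [LinearMap.zero_apply, map_zero]
    | add X Y _ _ hX hY => rw [LinearMap.add_apply, map_add, hX, hY, add_zero]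
    | smul c X _ hX => rw [LinearMap.smul_apply, map_smul, hX, smul_zero]
  have h2 : ∀ s : Γ, ∀ X ∈ conjSpan ρ ω a b, ω (ρ s a) (X (ρ s b)) = 0 := by
    intro s X hX
    have h3 := conjSpan_conj ρ χ ω a b hωρ s⁻¹ hX
    rw [inv_inv] at h3
    have h4 := h1 _ h3
    have h5 := hωρ s a ((ρ s⁻¹ * X * ρ s) b)
    rw [h4, mul_zero] at h5
    rw [← h5, Module.End.mul_apply, Module.End.mul_apply, rho_inv']
  induction hX using Submodule.span_induction with
  | mem X hX =>
    obtain ⟨s, rfl⟩ := hX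
    change ω x (SS ω (ρ s a) (ρ s b) y) = 0
    rw [pair_symm ω halt]
    exact h2 s _ hxy
  | zero => rw [LinearMap.zero_apply, map_zero]
  | add X Y _ _ hX hY => rw [LinearMap.add_apply, map_add, hX, hY, add_zero]
  | smul c X _ hX => rw [LinearMap.smul_apply, map_smul, hX, smul_zero]

/-- The vectors `y` with `SS x y` in the Lie algebra. -/
def sharp (𝔰 : Submodule k (Module.End k V)) (x : V) : Submodule k V where
  carrier := {y | SS ω x y ∈ 𝔰}
  zero_mem' := by
    change SS ω x 0 ∈ 𝔰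
    rw [SS_zero_right]
    exact Submodule.zero_mem _
  add_mem' := by
    intro y z hy hz
    change SS ω x (y + z) ∈ 𝔰
    rw [SS_add_right]
    exact Submodule.add_mem _ hy hz
  smul_mem' := by
    intro c y hy
    change SS ω x (c • y) ∈ 𝔰
    rw [SS_smul_right]
    exact Submodule.smul_mem _ _ hy

theorem mem_sharp {𝔰 : Submodule k (Module.End k V)} {x y : V} :
    y ∈ sharp ω 𝔰 x ↔ SS ω x y ∈ 𝔰 := Iff.rfl

/-- Some conjugate of `N = ρ t - 1` is not orthogonal to `N`. -/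
theorem exists_partner [FiniteDimensional k V] [IsAlgClosed k] (halt : ∀ v, ω v v = 0)
    (hnd : ∀ u, (∀ v, ω v u = 0) → u = 0)
    (hωρ : ∀ s u v, ω (ρ s u) (ρ s v) = χ s * ω u v)
    (hirr : ∀ U : Submodule k V, (∀ s : Γ, ∀ u ∈ U, ρ s u ∈ U) → U = ⊥ ∨ U = ⊤)
    (hab : ω a b = 0) (ha : a ≠ 0) (hb : b ≠ 0) {t : Γ} (ht : ρ t = 1 + SS ω a b)
    (hno : ∀ d, SS ω d d ∈ conjSpan ρ ω a b → d = 0)
    (hsp : ∀ X ∈ conjSpan ρ ω a b, ∀ u w, ω (X u) w + ω u (X w) = 0) :
    ∃ s : Γ, ω a (SS ω (ρ s a) (ρ s b) b) ≠ 0 := by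
  by_contra hcon
  push Not at hcon
  have hanti := alt_anti halt
  have hbr := conjSpan_bracket ρ χ ω a b halt hωρ hab ht
  have htr := fun x y (hxy : SS ω x y ∈ conjSpan ρ ω a b) X hX =>
    orth_all ρ χ ω a b halt hωρ hcon hxy (X := X) hX
  -- orthogonality of `x` and `y` for `SS x y` in the algebra
  have horth : ∀ x y, SS ω x y ∈ conjSpan ρ ω a b → ω x y = 0 := by
    intro x y hxy
    have h1 := htr x y hxy _ hxy
    rw [SS_apply, halt, zero_smul, add_zero, map_smul, smul_eq_mul] at h1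
    exact mul_self_eq_zero.1 h1
  have hinj : ∀ s : Γ, ∀ u : V, u ≠ 0 → ρ s u ≠ 0 := by
    intro s u hu h
    apply hu
    rw [← rho_inv ρ s u, h, map_zero]
  have hspan : Submodule.span k (Set.range fun s : Γ => ρ s a) = ⊤ := by
    refine (hirr _ ?_).resolve_left ?_
    · intro s u hu
      induction hu using Submodule.span_induction with
      | mem u hu =>
        obtain ⟨t, rfl⟩ := hu
        exact Submodule.subset_span ⟨s * t, rho_mul_apply ρ s t a⟩
      | zero => rw [map_zero]; exact Submodule.zero_mem _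
      | add a b _ _ ha hb => rw [map_add]; exact Submodule.add_mem _ ha hb
      | smul c a _ ha => rw [map_smul]; exact Submodule.smul_mem _ _ ha
    · intro h
      apply ha
      have h2 : a ∈ Submodule.span k (Set.range fun s : Γ => ρ s a) :=
        Submodule.subset_span ⟨1, by simp⟩
      rw [h] at h2
      exact (Submodule.mem_bot k).1 h2
  have hex : ∀ z : V, z ≠ 0 → ∃ s : Γ, ω (ρ s a) z ≠ 0 := by
    intro z hz
    by_contra hcon2
    push Not at hcon2
    apply hz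
    apply hnd
    intro v
    have hv : v ∈ Submodule.span k (Set.range fun s : Γ => ρ s a) := by
      rw [hspan]
      exact Submodule.mem_top
    induction hv using Submodule.span_induction with
    | mem u hu =>
      obtain ⟨t, rfl⟩ := hu
      exact hcon2 t
    | zero => rw [map_zero, LinearMap.zero_apply]
    | add x y _ _ hx hy => rw [map_add, LinearMap.add_apply, hx, hy, add_zero]
    | smul c x _ hx => rw [map_smul, LinearMap.smul_apply, hx, smul_zero]
  -- the main step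
  have hstep : ∀ z w₀ : V, z ≠ 0 → w₀ ≠ 0 → SS ω z w₀ ∈ conjSpan ρ ω a b →
      ∃ y x : V, y ≠ 0 ∧ x ≠ 0 ∧ SS ω y x ∈ conjSpan ρ ω a b ∧
        finrank k (sharp ω (conjSpan ρ ω a b) z) < finrank k (sharp ω (conjSpan ρ ω a b) y) := by
    intro z w₀ hz hw₀ hzw₀
    obtain ⟨s, hs⟩ := hex z hz
    have hxy := mem_conjSpan ρ ω a b s
    set x := ρ s a with hxdef
    set y := ρ s b with hydef
    have hx : x ≠ 0 := hinj s a ha
    have hy : y ≠ 0 := hinj s b hb
    refine ⟨y, x, hy, hx, by rw [SS_comm]; exact hxy, ?_⟩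
    apply Submodule.finrank_lt_finrank_of_lt
    refine lt_of_le_of_ne ?_ ?_
    · intro w hw
      rw [mem_sharp] at hw ⊢
      by_cases hw0 : w = 0
      · rw [hw0, SS_zero_right]
        exact Submodule.zero_mem _
      have e1 : ω x w = 0 := by
        have h1 := star ω (conjSpan ρ ω a b) hbr hsp hno halt hx hy (horth x y hxy) hxy hw
        rw [SS_apply, map_add, map_smul, map_smul, smul_eq_mul, smul_eq_mul, hanti z x,
          hanti w x] at h1
        have h2 : (2 * ω x z) * ω x w = 0 := by linear_combination -h1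
        exact (mul_eq_zero.1 h2).resolve_left (mul_ne_zero two_ne_zero hs)
      have e2 : ω z y = 0 := by
        have h1 := star ω (conjSpan ρ ω a b) hbr hsp hno halt hz hw0 (horth z w hw) hw hxy
        rw [SS_apply, map_add, map_smul, map_smul, smul_eq_mul, smul_eq_mul, hanti z x,
          hanti y z] at h1
        have h2 : (2 * ω x z) * ω z y = 0 := by linear_combination h1
        exact (mul_eq_zero.1 h2).resolve_left (mul_ne_zero two_ne_zero hs)
      have e3 : ω y w = 0 := by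
        have h1 := htr x y hxy _ hw
        rw [SS_apply, e2, zero_smul, zero_add, map_smul, smul_eq_mul, hanti w y] at h1
        have h2 : ω x z * ω y w = 0 := by linear_combination -h1
        exact (mul_eq_zero.1 h2).resolve_left hs
      have h1 := hbr _ hxy _ hw
      rw [SS_bracket ω halt, e1, e3, hanti y z, e2, neg_zero, zero_smul, zero_smul, zero_smul,
        zero_add, zero_add, add_zero] at h1
      exact (Submodule.smul_mem_iff _ hs).1 h1
    · intro h
      have h1 : x ∈ sharp ω (conjSpan ρ ω a b) y := by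
        rw [mem_sharp, SS_comm]
        exact hxy
      rw [← h, mem_sharp] at h1
      apply hs
      rw [hanti, horth z x h1, neg_zero]
  have hP : ∀ n : ℕ, ∃ z w : V, z ≠ 0 ∧ w ≠ 0 ∧ SS ω z w ∈ conjSpan ρ ω a b ∧
      n ≤ finrank k (sharp ω (conjSpan ρ ω a b) z) := by
    intro n
    induction n with
    | zero => exact ⟨a, b, ha, hb, mem_conjSpan_one ρ ω a b, Nat.zero_le _⟩
    | succ n ih =>
      obtain ⟨z, w, hz, hw, hzw, hn⟩ := ih
      obtain ⟨y, x, hy, hx, hyx, hlt⟩ := hstep z w hz hw hzw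
      exact ⟨y, x, hy, hx, hyx, by omega⟩
  obtain ⟨z, w, _, _, _, hn⟩ := hP (finrank k V + 1)
  have h1 := Submodule.finrank_le (sharp ω (conjSpan ρ ω a b) z)
  omega

end

end Pool.Agent.W528.Tor
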